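import Pool.Agent.Q1.BD.Tfae

set_option autoImplicit false

/-!
# Families of points of bounded degree and gonality: an equivalence

We consider families of points of degree at most `d` in projective `n`-space, over subfields of `ℂ`
(for example number fields): for `h` in an arbitrary group `H` let `Pol (x h)` be a monic polynomial
of degree `d` and, for the roots `α` of this polynomial, `Num (x h) α` the point whose `n + 1`
homogeneous coordinates are values of polynomials of degree less than `d` at `α`; the coefficients of
these `n + 2` polynomials are the components of the vector `x(h)`.  If the `x(h)` are in a number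
field `k`, all these points have degree at most `d` over `k`, and the fields generated by them change
with `h`.  `IterFam s r e x` says that `x(h)` is given by iterated recurrences: there are invertible
matrices `X_1(h), ..., X_s(h)` of size `r` such that, for all `g` in `H`, the entries of
`X_l(g h) X_l(h)⁻¹` are, for all `h`, the values of polynomials (depending on `g`) of degree at most
`e` in each variable at the entries of `X_i(h)`, `X_i(h)⁻¹`, `i < l`, and the components of `x(h)`
are values of such polynomials at the entries of all these matrices.

Let `X` be the closed set (for example a curve) in projective `n`-space given by a set `S` of forms,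
and let `G` be a form (for example `G = 1`).  The following are equivalent:

1. the curves of gonality at most `d` on `X` are in `G = 0`: all points of degree `d' ≤ d` over the
   field `ℂ(t)`, with coefficients in `ℂ[t]` of any degree, which are on `X` with all their
   conjugates and are not constant, are zeros of `G`;
2. for all `s`, `r`, `e` there is a number `B` such that every family `x` with `IterFam s r e x`, on
   any group, of points of degree at most `d` of `X` has at most `B` points outside of `G = 0`;
3. each such family has only finitely many points outside of `G = 0`;
4. each such family with the group `ℤ`, one step and matrices of size `2` has only finitely many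
   points outside of `G = 0`.
-/

namespace Pool.Agent.Results.MP_6f1c57_nt.GonalityEquivalence

open MvPolynomial Pool.Agent.Q1.BD

theorem result (n D d : ℕ) (S : Set (MvPolynomial (Fin (n + 1)) ℂ))
    (G : MvPolynomial (Fin (n + 1)) ℂ) (hS : ∀ F ∈ S, ∃ e, e ≤ D ∧ F.IsHomogeneous e)
    (hG : ∃ e, e ≤ D ∧ G.IsHomogeneous e) :
    List.TFAE [∀ δ, GonIn S G d δ,
      ∀ s r e, ∃ B : ℕ, ∀ (H : Type) [Group H] (x : H → Jx n d → ℂ), IterFam s r e x →
        (∀ h α, (Pol (x h)).eval α = 0 → ∀ F ∈ S, eval (Num (x h) α) F = 0) →
        (rootPtsC G x).encard ≤ (B : ℕ∞),
      ∀ s r e, ∀ (H : Type) [Group H] (x : H → Jx n d → ℂ), IterFam s r e x →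
        (∀ h α, (Pol (x h)).eval α = 0 → ∀ F ∈ S, eval (Num (x h) α) F = 0) →
        (rootPtsC G x).Finite,
      ∀ e, ∀ x : Multiplicative ℤ → Jx n d → ℂ, IterFam 1 2 e x →
        (∀ h α, (Pol (x h)).eval α = 0 → ∀ F ∈ S, eval (Num (x h) α) F = 0) →
        (rootPtsC G x).Finite] :=
  gon_tfae n D d S G hS hG

end Pool.Agent.Results.MP_6f1c57_nt.GonalityEquivalence
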