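import Mathlib
import Pool.Agent.Q158.RR
import Pool.Agent.Results.MP_6f1c57_nt.ProximityWindows

/-!
# The height inequality with proximity function above all numbers of degree `r` and random height

For a curve which is finite over the `t`-line, divisors above `q ≥ 3` rational points, `r ≥ 2` and `0 ≤ κ ≤ q`, let
`e / (r + 1) ≤ s < 1`, where `e < r + 1` is explicit. If the integer `N` is given by digits or by multiples of a random real
number (in the sense of `RandomReals s`), then for all `C₀` and `k`, the inequality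
`m_S(D, P) + (degree - κ) h(x) ≤ d(L) + ∑_{p ∈ S} log p - C₀` holds for ALL algebraic numbers `x` of degree `r` with
`|H(x) ^ (r (r + 1)) - N| ≤ k`, ALL points `P` of the curve above `x`, over any number field `L`, and ALL finite sets `S`
of primes.
-/

set_option autoImplicit false

namespace Pool.Agent.Results.MP_6f1c57_nt.RandomHeights

open Polynomial IsDedekindDomain NumberField
open ProximityAllCurves (height coord proximity logDisc degree alpha exponent exceptional)
open ProximityWindows (Val count expo_lt)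

/-- For ALL algebraic numbers `x` of degree `r` (with irreducible integral polynomial `f` and height
`H = exp (height f)`) with `|H ^ (r (r + 1)) - N| ≤ k`, ALL points `P = φ` of the curve above `x` over any number field
`L` and ALL finite sets `S` of primes: `m_S(F, P) + (degree - κ) h(x) ≤ d(L) + ∑_{p ∈ S} log p - C₀`. -/
def Good {A : Type} [CommRing A] [Algebra ℚ A] [Algebra ℚ[X] A] {q : ℕ} (u : Fin q → ℕ)
    (y : ∀ j, Fin (u j + 1) → A) (r : ℕ) (κ : ℝ) (C₀ k N : ℕ) : Prop :=
  ∀ (x : ℂ) (f : ℤ[X]), Irreducible f → f.natDegree = r → aeval x f = 0 →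
    |Real.exp (height f) ^ (r * (r + 1)) - (N : ℝ)| ≤ k →
      ∀ (L : IntermediateField ℚ ℂ) [NumberField L] (φ : A →+* L) (S : Finset ℕ),
        (φ (coord A) : ℂ) = x → (∀ p ∈ S, p.Prime) →
        proximity S u y L φ + (degree u y - κ) * height f ≤ logDisc L + ∑ p ∈ S, Real.log p - C₀

/-- **Theorem.** For `η > 0` there is `c ≥ 1` such that the following holds. Let `A` be a Dedekind domain, finite over
`ℚ[t]` and containing it, let `r ≥ 2`, let `a_1, …, a_q` be `q ≥ 3` distinct rational numbers, let
`y_{j 0} = t - a_j, y_{j 1}, …` be elements of the radical of the ideal `(t - a_j)` and `κ ≤ q`. (For `κ ≥ 0` the exponent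
`e = exponent (alpha r c η) r q κ` is smaller than `r + 1`.) Let `max e 0 / (r + 1) ≤ s < 1`. In the sense of
`RandomReals s` (windows of digits in all bases, and integers near the multiples `α v_k`, for random real numbers `α`, with
Hausdorff dimensions and measures of the exceptional sets) the property `Good u y r κ C₀ k N` holds for all `C₀` and `k`
at once. -/
theorem result :
    ∀ η : ℝ, 0 < η → ∃ c : ℝ, 1 ≤ c ∧
      ∀ (A : Type) [CommRing A] [IsDedekindDomain A] [Algebra ℚ A] [Algebra ℚ[X] A]
        [IsScalarTower ℚ ℚ[X] A] [Module.Finite ℚ[X] A] [FaithfulSMul ℚ[X] A]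
        (r q : ℕ), 2 ≤ r → 3 ≤ q → ∀ a : Fin q → ℚ, Function.Injective a →
      ∀ (u : Fin q → ℕ) (y : ∀ j, Fin (u j + 1) → A),
      (∀ j, y j 0 = coord A - algebraMap ℚ[X] A (C (a j))) →
      (∀ j i, y j i ∈ (Ideal.span {coord A - algebraMap ℚ[X] A (C (a j))}).radical) →
      ∀ κ : ℝ, κ ≤ q →
      (0 ≤ κ → exponent (alpha r c η) r q κ / (r + 1) < 1) ∧
      ∀ s : ℝ, max (exponent (alpha r c η) r q κ) 0 / (r + 1) ≤ s → s < 1 →
        Pool.Agent.Q21.DW.RandomReals s (fun (p : ℕ × ℕ) (N : ℕ) => Good u y r κ p.1 p.2 N) := by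
  intro η hη
  obtain ⟨c, hc, hmain⟩ := ProximityAllCurves.result η hη
  refine ⟨c, hc, fun A _ _ _ _ _ _ _ r q hr hq a ha u y hy0 hy κ hκ =>
    ⟨fun h0 => ?_, fun s hs hs1 => ?_⟩⟩
  · have h1 := expo_lt hr hq hc h0 (η := η)
    rw [div_lt_one (by positivity)]
    exact h1
  · have hs0 : 0 ≤ max (exponent (alpha r c η) r q κ) 0 / ((r : ℝ) + 1) :=
      div_nonneg (le_max_right _ _) (by positivity)
    refine Pool.Agent.Q158.RR.mono (Pool.Agent.Q158.RR.random
      (fun j : ℕ => Val u y r κ (-(j : ℝ))) (fun _ z => z) s (hs0.trans hs) hs1 fun j =>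
        Pool.Agent.Q158.RR.weaken hs (fun ε hε => count u y hr κ (-(j : ℝ)) _
          (fun δ hδ => hmain A r q hr hq a ha u y hy0 hy κ (-(j : ℝ)) δ hκ hδ) ε hε)) id fun p N h => ?_
    intro x f hf hfr hfx hw L hL φ S hφ hS
    by_contra hcon
    push Not at hcon
    refine absurd (h _ ⟨f, x, ⟨hf, hfr, hfx, L, hL, φ, S, hφ, hS, ?_⟩, rfl⟩) (not_lt.2 hw)
    simp only [id_eq]
    linarith

end Pool.Agent.Results.MP_6f1c57_nt.RandomHeights
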