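import Pool.Agent.Q1.BD.UniB

set_option autoImplicit false

/-!
# Families of points of bounded degree: bounds which do not depend on the curve

We consider families of points of degree at most `d` in projective `n`-space, over subfields of `ℂ`
(for example number fields): for `h` in an arbitrary group `H` let `Pol (x h)` be a monic polynomial
of degree `d` and, for the roots `α` of this polynomial, `Num (x h) α` the point whose `n + 1`
homogeneous coordinates are values of polynomials of degree less than `d` at `α`; the coefficients of
these `n + 2` polynomials are the components of the vector `x(h)`.  If the `x(h)` are in a number
field `k`, all these points have degree at most `d` over `k`, and the fields generated by them change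
with `h`.  We suppose that `x(h)` is given by iterated recurrences (`IterFam s r e x`): there are
invertible matrices `X_1(h), ..., X_s(h)` of size `r` such that, for all `g` in `H`, the entries of
`X_l(g h) X_l(h)⁻¹` are, for all `h`, the values of polynomials (depending on `g`) of degree at most
`e` in each variable at the entries of `X_i(h)`, `X_i(h)⁻¹`, `i < l`, and the components of `x(h)`
are values of such polynomials at the entries of all these matrices.

For all `n`, `D`, `d`, `s`, `r`, `e` there are two numbers `δ` and `B` such that the following holds
for ALL curves, and all closed sets `X`, of projective `n`-space given by any set `S` of forms of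
degree at most `D`, and for all forms `G` of degree at most `D`.  If the curves of gonality at most
`d` and of degree at most `δ` on `X` are in `G = 0` (`GonIn S G d δ`), then at most `B` points of
`X` outside of `G = 0` are in a family of the above kind of points of `X`.

For `G = 1` and a curve `X` the hypothesis is that `X` has no component of gonality at most `d` (and
degree at most `δ`): then each family of the above kind of points of degree at most `d` of `X` has at
most `B` elements, where `B` does not depend on `X`, on the field or on the family; on these points
the height inequality (with any divisor) is true.
-/

namespace Pool.Agent.Results.MP_6f1c57_nt.UniformBoundedDegree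

open MvPolynomial Pool.Agent.Q1.BD

theorem result (n D d s r e : ℕ) : ∃ δ B : ℕ,
    ∀ (S : Set (MvPolynomial (Fin (n + 1)) ℂ)) (G : MvPolynomial (Fin (n + 1)) ℂ),
      (∀ F ∈ S, ∃ e, e ≤ D ∧ F.IsHomogeneous e) → (∃ e, e ≤ D ∧ G.IsHomogeneous e) →
      GonIn S G d δ → ∀ (H : Type) [Group H] (x : H → Jx n d → ℂ), IterFam s r e x →
        (∀ h α, (Pol (x h)).eval α = 0 → ∀ F ∈ S, eval (Num (x h) α) F = 0) →
        (rootPtsC G x).encard ≤ (B : ℕ∞) :=
  gon_uniform n D d s r e

end Pool.Agent.Results.MP_6f1c57_nt.UniformBoundedDegree
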